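import Pool.Agent.MP_3ce0a0_al.H27.XD1B

/-
The majority signs of the conjugations of one letter by another.
-/

namespace Pool.Agent.MP_3ce0a0_al.H27.D1

open Equiv Module Finset Pool.Agent.MP_3ce0a0_al.H62.Inst Pool.Agent.MP_3ce0a0_al.H79.X
open FreeGroup (of)

section
variable {κ : Type} {θ : κ → ℂ × ℂ}

open Classical in
/-- the sign at one place. -/
noncomputable def sg (θ : κ → ℂ × ℂ) (e : κ) : ℂ := if (θ e).1 = (θ e).2 then 1 else -1

open Classical in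
/-- the majority sign. -/
noncomputable def eps (θ : κ → ℂ × ℂ) : ℂ := if ∀ e, (θ e).1 = (θ e).2 then 1 else -1

lemma mul_eq_sg {e : κ} (h : (θ e).1 ^ 2 = 1 ∧ (θ e).2 ^ 2 = 1) :
    (θ e).1 * (θ e).2 = sg θ e := by
  unfold sg
  rcases sq_eq_one_iff.1 h.1 with a | a <;> rcases sq_eq_one_iff.1 h.2 with b | b <;>
    rw [a, b] <;> norm_num

lemma sg_all (h : ∀ e, (θ e).1 = (θ e).2) : eps θ = 1 ∧ ∀ e, sg θ e = 1 :=
  ⟨if_pos h, fun e => if_pos (h e)⟩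

lemma sg_pt [DecidableEq κ] {e₀ : κ} (h : Pt θ e₀) (k : ∃ e, e ≠ e₀) :
    eps θ = -1 ∧ ∀ e, sg θ e = if e = e₀ then 1 else -1 :=
  ⟨if_neg fun a => k.elim fun e he => he ((h.2 e).1 (a e)), fun e => by
    unfold sg
    by_cases p : e = e₀
    · rw [if_pos p, if_pos ((h.2 e).2 p)]
    · rw [if_neg p, if_neg (mt (h.2 e).1 p)]⟩

end

variable {ι H : Type} [Fintype ι] [DecidableEq ι] [AddCommGroup H] [Module ℂ H]
  [FiniteDimensional ℂ H] {r : Rep ι H}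

omit [Fintype ι] [FiniteDimensional ℂ H] in
lemma sc_s {b : ι} {θ : K b → ℂ × ℂ} (h : ∀ e, (θ e).1 ^ 2 = 1 ∧ (θ e).2 ^ 2 = 1) (e : K b)
    {s : End ℂ H} (hs : IsSg s (r (kk e.1 b))) : Sc (GE r {b} (of b) θ) s (sg θ e) := fun v hv => by
  rw [← mul_eq_sg (h e)]
  refine sg_eq hs ?_ (ge_K hv e)
  have := h e
  calc _ = (θ e).1 ^ 2 * (θ e).2 ^ 2 := by ring
    _ = 1 := by rw [this.1, this.2, one_mul]

/-- the properties at one letter. -/
def One (r : Rep ι H) (b : ι) (D : End ℂ H) (ν : ℕ) : Prop :=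
  D * D = 1 ∧
  (∀ e₁ e₂ e₃ s₁ s₂ s₃, [b, e₁, e₂, e₃].Nodup → IsSg s₁ (r (kk e₁ b)) → IsSg s₂ (r (kk e₂ b)) →
    IsSg s₃ (r (kk e₃ b)) → (2 : ℂ) • D = s₁ + s₂ + s₃ - s₁ * s₂ * s₃) ∧
  (∀ e s, e ≠ b → IsSg s (r (kk e b)) → (s - D) * (1 + D) = 0 ∧
    ∀ f s', f ≠ b → f ≠ e → IsSg s' (r (kk f b)) → (s - D) * (s' - D) = 0) ∧
  finrank ℂ (End.eigenspace D (-1)) = ν * (Fintype.card ι - 1) * 2 ^ (Fintype.card ι - 1) ∧
  (∀ e, e ≠ b → finrank ℂ (End.eigenspace D (-1) ⊓ (r (kk e b)).maxGenEigenspace 1 :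
    Submodule ℂ H) = ν * 2 ^ (Fintype.card ι - 1)) ∧
  (ν = 1 → ∀ e, e ≠ b → ∀ v ∈ End.eigenspace D (-1), r (rh e b) (r (rh e b) v) = v)

open Classical in
lemma one (h1 : SChar) (h2 : SPat) (h3 : SSg) (h8 : 8 ≤ Fintype.card ι)
    (hev : Even (Fintype.card ι))
    (hd : finrank ℂ H ≤ (Fintype.card ι - 1) * 2 ^ Fintype.card ι) (hn : NoInn r) (hq : Quad r)
    (b : ι) : ∃ D ν, One r b D ν := by
  obtain ⟨T, ν, top, ind, bot, pat, dim, sm⟩ := loc h1 h2 h8 hev hd hn hq b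
  have ck := card_K b
  have ex : ∀ e : K b, ∃ s, IsSg s (r (kk e.1 b)) := fun e => (h3 H _).1 (uni_K hq (K.ne e))
  choose s hs using ex
  obtain ⟨a₁, a₂, a₃, n₁, n₂, n₃⟩ := (Fintype.two_lt_card_iff (α := K b)).1 (by omega)
  have oth : ∀ e₀ : K b, ∃ e, e ≠ e₀ := fun e₀ => by
    by_cases k : a₁ = e₀
    · exact ⟨a₂, fun h => n₁ (k.trans h.symm)⟩
    · exact ⟨a₁, k⟩
  have maj : ∀ θ ∈ T, ∀ e₁ e₂ e₃ : K b, e₁ ≠ e₂ → e₁ ≠ e₃ → e₂ ≠ e₃ →
      sg θ e₁ + sg θ e₂ + sg θ e₃ - sg θ e₁ * sg θ e₂ * sg θ e₃ = 2 * eps θ := by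
    intro θ k e₁ e₂ e₃ p₁ p₂ p₃
    rcases (pat θ k).2 with h | ⟨e₀, h⟩
    · simp only [sg_all h]
      norm_num
    · simp only [sg_pt h (oth e₀)]
      split_ifs with x y z <;> first | (exfalso; simp_all; done) | norm_num
  have mk : ∀ θ ∈ T, ∀ (e₁ e₂ e₃ : K b) s₁ s₂ s₃, e₁ ≠ e₂ → e₁ ≠ e₃ → e₂ ≠ e₃ →
      IsSg s₁ (r (kk e₁.1 b)) → IsSg s₂ (r (kk e₂.1 b)) → IsSg s₃ (r (kk e₃.1 b)) →
      Sc (GE r {b} (of b) θ) (s₁ + s₂ + s₃ - s₁ * s₂ * s₃) (2 * eps θ) :=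
    fun θ k e₁ e₂ e₃ s₁ s₂ s₃ p₁ p₂ p₃ q₁ q₂ q₃ =>
      have a := sc_s (pat θ k).1 e₁ q₁
      have c := sc_s (pat θ k).1 e₂ q₂
      have d := sc_s (pat θ k).1 e₃ q₃
      (((a.add c).add d).sub ((a.mul c).mul d)).cast (maj θ k e₁ e₂ e₃ p₁ p₂ p₃)
  set D : End ℂ H := (2⁻¹ : ℂ) • (s a₁ + s a₂ + s a₃ - s a₁ * s a₂ * s a₃) with hD
  have sD : ∀ θ ∈ T, Sc (GE r {b} (of b) θ) D (eps θ) := fun θ k =>
    ((mk θ k a₁ a₂ a₃ _ _ _ n₁ n₂ n₃ (hs _) (hs _) (hs _)).smul 2⁻¹).cast (by ring)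
  have neg : ∀ θ ∈ T, eps θ = -1 ↔ ∃ e₀, Pt θ e₀ := fun θ k =>
    ⟨fun h => (pat θ k).2.resolve_left fun a => by
      rw [(sg_all a).1] at h
      norm_num at h, fun ⟨e₀, h⟩ => (sg_pt h (oth e₀)).1⟩
  refine ⟨D, ν, ?_, ?_, ?_, ?_, ?_, ?_⟩
  · refine ext_of top bot fun θ k => ⟨1, ((sD θ k).mul (sD θ k)).cast ?_, Sc.one⟩
    unfold eps
    split_ifs <;> norm_num
  · intro e₁ e₂ e₃ s₁ s₂ s₃ nd q₁ q₂ q₃
    simp only [List.nodup_cons, List.mem_cons, not_or, List.not_mem_nil, not_false_eq_true,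
      and_true, List.nodup_nil] at nd
    exact ext_of top bot fun θ k => ⟨_, (sD θ k).smul 2,
      mk θ k ⟨e₁, by simpa using Ne.symm nd.1.1⟩ ⟨e₂, by simpa using Ne.symm nd.1.2.1⟩
        ⟨e₃, by simpa using Ne.symm nd.1.2.2⟩ _ _ _ (fun h => nd.2.1.1 (congrArg Subtype.val h))
        (fun h => nd.2.1.2 (congrArg Subtype.val h)) (fun h => nd.2.2 (congrArg Subtype.val h))
        q₁ q₂ q₃⟩
  · intro e t he ht
    have he' : e ∉ ({b} : Finset ι) := by simpa using he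
    refine ⟨ext_of top bot fun θ k => ⟨0, (((sc_s (pat θ k).1 ⟨e, he'⟩ ht).sub (sD θ k)).mul
      (Sc.one.add (sD θ k))).cast ?_, Sc.zero⟩, fun f t' hf fe ht' => ?_⟩
    · rcases (pat θ k).2 with h | ⟨e₀, h⟩
      · simp only [sg_all h]
        norm_num
      · simp only [sg_pt h (oth e₀)]
        norm_num
    · have hf' : f ∉ ({b} : Finset ι) := by simpa using hf
      refine ext_of top bot fun θ k => ⟨0, (((sc_s (pat θ k).1 ⟨e, he'⟩ ht).sub (sD θ k)).mul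
        ((sc_s (pat θ k).1 ⟨f, hf'⟩ ht').sub (sD θ k))).cast ?_, Sc.zero⟩
      rcases (pat θ k).2 with h | ⟨e₀, h⟩
      · simp only [sg_all h]
        norm_num
      · simp only [sg_pt h (oth e₀)]
        split_ifs with x y
        · exact absurd (congrArg Subtype.val (y.trans x.symm)) fe
        all_goals norm_num
  · have c : ∑ _e : K b, ν * 2 ^ (Fintype.card ι - 1) =
        ν * (Fintype.card ι - 1) * 2 ^ (Fintype.card ι - 1) := by
      rw [sum_const, card_univ, ck, smul_eq_mul]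
      ring
    rw [finrank_eig top bot ind eps sD, ← c, ← sum_congr rfl fun e₀ _ => sm e₀]
    simp only [sum_filter]
    rw [sum_comm]
    refine sum_congr rfl fun θ k => ?_
    by_cases h : eps θ = -1
    · obtain ⟨e₀, p⟩ := (neg θ k).1 h
      rw [if_pos h, sum_eq_single e₀ (fun e _ n => if_neg fun q => n ((p.2 e).1 ((q.2 e).2 rfl)))
        (by simp), if_pos p]
    · rw [if_neg h, sum_eq_zero fun e _ => if_neg fun q => h ((neg θ k).2 ⟨e, q⟩)]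
  · intro e he
    have he' : e ∉ ({b} : Finset ι) := by simpa using he
    let e' : K b := ⟨e, he'⟩
    have sc : ∀ θ ∈ T, Sc (GE r {b} (of b) θ) (s e' - D) (sg θ e' - eps θ) := fun θ k =>
      (sc_s (pat θ k).1 e' (hs e')).sub (sD θ k)
    have two : ∀ θ ∈ T, sg θ e' - eps θ = 2 ↔ Pt θ e' := fun θ k => by
      rcases (pat θ k).2 with h | ⟨e₀, h⟩
      · refine iff_of_false (by simp [sg_all h]) fun p => ?_
        obtain ⟨x, hx⟩ := oth e'
        exact hx ((p.2 x).1 (h x))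
      · simp only [sg_pt h (oth e₀)]
        by_cases x : e' = e₀
        · exact iff_of_true (by rw [if_pos x]; norm_num) (x ▸ h)
        · exact iff_of_false (by rw [if_neg x]; norm_num) fun p => x ((h.2 e').1 ((p.2 e').2 rfl))
    have eq : End.eigenspace D (-1) ⊓ (r (kk e b)).maxGenEigenspace 1 =
        End.eigenspace (s e' - D) 2 := by
      refine le_antisymm (fun v hv => ?_) ?_
      · rw [End.mem_eigenspace_iff, LinearMap.sub_apply, End.mem_eigenspace_iff.1 hv.1,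
          sg_eq (hs e') (one_mul 1) hv.2, ← sub_smul]
        norm_num
      · rw [eig_eq top bot _ sc]
        refine iSup_le fun θ v hv => ?_
        have k := mem_filter.1 θ.2
        have p := (two _ k.1).1 k.2
        refine ⟨?_, ?_⟩
        · exact End.mem_eigenspace_iff.2 (by rw [sD _ k.1 v hv, (sg_pt p (oth _)).1])
        · have := ge_K hv e'
          rwa [mul_eq_sg (p.1 e'), (sg_pt p (oth _)).2, if_pos rfl] at this
    rw [eq, finrank_eig top bot ind _ sc, ← sm e']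
    exact sum_congr (filter_congr two) fun _ _ => rfl
  · intro h e he v hv
    let e' : K b := ⟨e, by simpa using he⟩
    rw [eig_eq top bot eps sD] at hv
    refine Submodule.iSup_induction _ (motive := fun v => r (rh e b) (r (rh e b) v) = v) hv
      (fun θ w hw => ?_) (by simp) fun x y hx hy => by simp [hx, hy]
    have k := mem_filter.1 θ.2
    obtain ⟨e₀, p⟩ := (neg _ k.1).1 k.2
    by_cases z : w = 0
    · simp [z]
    have d := (dim _ e₀ p).trans h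
    obtain ⟨c, hc⟩ := (finrank_eq_one_iff_of_nonzero' (⟨w, hw⟩ : GE r {b} (of b) θ.1)
      (fun x => z (congrArg Subtype.val x))).1 d ⟨_, keeps_R _ e' w hw⟩
    have hc' : r (Rw e (of b)) w = c • w := (congrArg Subtype.val hc).symm
    have := gen_uniq (gen_of_eq hc') (ge_R hw e') z
    rw [rh_eq he, hc', map_smul, hc', smul_smul, this, ← pow_two, (p.1 e').1, one_smul]

theorem main (h1 : SChar) (h2 : SPat) (h3 : SSg) : SD1 := by
  intro ι H _ _ _ _ _ r h8 hev hd hn hq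
  choose D ν h using one h1 h2 h3 h8 hev hd hn hq
  have ex : ∀ b e : ι, e ≠ b → ∃ s, IsSg s (r (kk e b)) := fun b e he => (h3 H _).1 (uni_K hq he)
  have tri : ∀ b : ι, ∃ e₁ e₂ e₃, [b, e₁, e₂, e₃].Nodup := fun b => by
    obtain ⟨a₁, a₂, a₃, n₁, n₂, n₃⟩ := (Fintype.two_lt_card_iff (α := K b)).1
      (by rw [card_K]; omega)
    exact ⟨a₁.1, a₂.1, a₃.1, by
      simp [(K.ne a₁).symm, (K.ne a₂).symm, (K.ne a₃).symm, Subtype.val_inj, n₁, n₂, n₃]⟩
  have nd : ∀ {b e₁ e₂ e₃ : ι}, [b, e₁, e₂, e₃].Nodup → e₁ ≠ b ∧ e₂ ≠ b ∧ e₃ ≠ b := fun n => by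
    simp only [List.nodup_cons, List.mem_cons, not_or] at n
    exact ⟨Ne.symm n.1.1, Ne.symm n.1.2.1, Ne.symm n.1.2.2.1⟩
  have half : ∀ {x y : End ℂ H}, (2 : ℂ) • x = y → x = (2⁻¹ : ℂ) • y := fun e => by
    rw [← e, smul_smul]
    norm_num
  have pmD : ∀ (σ : Perm ι) b, r (pm σ) * D b = D (σ b) * r (pm σ) := fun σ b => by
    obtain ⟨e₁, e₂, e₃, n⟩ := tri b
    obtain ⟨s₁, q₁⟩ := ex b e₁ (nd n).1
    obtain ⟨s₂, q₂⟩ := ex b e₂ (nd n).2.1
    obtain ⟨s₃, q₃⟩ := ex b e₃ (nd n).2.2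
    have u1 : r (pm σ) * r (pm σ)⁻¹ = 1 := by rw [← map_mul, mul_inv_cancel, map_one]
    have u2 : r (pm σ)⁻¹ * r (pm σ) = 1 := by rw [← map_mul, inv_mul_cancel, map_one]
    have cj : ∀ e s, IsSg s (r (kk e b)) →
        IsSg (r (pm σ) * s * r (pm σ)⁻¹) (r (kk (σ e) (σ b))) := fun e s q => by
      have := ((h3 H _).2 s q).2.2.2.2.2.2.2.2.1 _ _ u1
      rwa [← map_mul, ← map_mul, pm_kk, mul_inv_cancel_right] at this
    have n' : [σ b, σ e₁, σ e₂, σ e₃].Nodup := n.map σ.injective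
    have u3 : ∀ x : End ℂ H, r (pm σ)⁻¹ * (r (pm σ) * x) = x := fun x => by
      rw [← mul_assoc, u2, one_mul]
    rw [half ((h b).2.1 _ _ _ _ _ _ n q₁ q₂ q₃),
      half ((h (σ b)).2.1 _ _ _ _ _ _ n' (cj _ _ q₁) (cj _ _ q₂) (cj _ _ q₃)), mul_smul_comm,
      smul_mul_assoc]
    simp only [mul_sub, mul_add, sub_mul, add_mul, mul_assoc, u2, u3, mul_one]
  have eqν : ∀ b c, ν b = ν c := fun b c => by
    have le : ∀ b c, finrank ℂ (End.eigenspace (D b) (-1)) ≤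
        finrank ℂ (End.eigenspace (D c) (-1)) := fun b c => by
      have u2 : r (pm (swap b c))⁻¹ * r (pm (swap b c)) = 1 := by
        rw [← map_mul, inv_mul_cancel, map_one]
      rw [← finrank_map_unit u2]
      refine Submodule.finrank_mono ?_
      rintro _ ⟨v, hv, rfl⟩
      have := pmD (swap b c) b
      rw [swap_apply_left] at this
      rw [End.mem_eigenspace_iff, ← End.mul_apply, ← this, End.mul_apply,
        End.mem_eigenspace_iff.1 hv, map_smul]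
    have := le_antisymm (le b c) (le c b)
    rw [(h b).2.2.2.1, (h c).2.2.2.1] at this
    exact Nat.eq_of_mul_eq_mul_right (by omega)
      (Nat.eq_of_mul_eq_mul_right (Nat.two_pow_pos _) this)
  obtain ⟨b₀⟩ : Nonempty ι := Fintype.card_pos_iff.1 (by omega)
  refine ⟨D, fun b => (h b).1, fun b e₁ e₂ e₃ n => ?_, fun b => (h b).2.1, fun b => (h b).2.2.1,
    pmD, fun a b => ?_, ν b₀, fun b => eqν b b₀ ▸ (h b).2.2.2⟩
  · obtain ⟨s₁, q₁⟩ := ex b e₁ (nd n).1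
    obtain ⟨s₂, q₂⟩ := ex b e₂ (nd n).2.1
    obtain ⟨s₃, q₃⟩ := ex b e₃ (nd n).2.2
    have m : ∀ {e s}, IsSg s (r (kk e b)) →
        r (kk e b) ∈ ({r (kk e₁ b), r (kk e₂ b), r (kk e₃ b)} : Set (End ℂ H)) →
        s ∈ Algebra.adjoin ℂ {r (kk e₁ b), r (kk e₂ b), r (kk e₃ b)} := fun q k =>
      Algebra.adjoin_mono (Set.singleton_subset_iff.2 k) ((h3 H _).2 _ q).1
    have m₁ := m q₁ (by simp)
    have m₂ := m q₂ (by simp)
    have m₃ := m q₃ (by simp)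
    rw [half ((h b).2.1 _ _ _ _ _ _ n q₁ q₂ q₃)]
    exact Subalgebra.smul_mem _ (sub_mem (add_mem (add_mem m₁ m₂) m₃)
      (mul_mem (mul_mem m₁ m₂) m₃)) _
  · obtain ⟨e₁, e₂, e₃, n⟩ := tri b
    obtain ⟨s₁, q₁⟩ := ex b e₁ (nd n).1
    obtain ⟨s₂, q₂⟩ := ex b e₂ (nd n).2.1
    obtain ⟨s₃, q₃⟩ := ex b e₃ (nd n).2.2
    have ee : r (ep a) * r (ep a) = 1 := by rw [← map_mul, ep_sq, map_one]
    have m : ∀ {e s}, e ≠ b → IsSg s (r (kk e b)) → Commute (r (ep a)) s := fun {e s} he q => by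
      by_cases k : a = b
      · subst k
        have p1 := ((h3 H _).2 s q).2.2.2.2.2.2.2.2.1 _ _ ee
        rw [← map_mul, ← map_mul, ep_kk_inv he] at p1
        have p2 := ((h3 H _).2 s q).2.2.2.2.2.2.2.2.2.1 (r (kk e a)⁻¹)
          (by rw [← map_mul, mul_inv_cancel, map_one])
        have p3 := ((h3 H _).2 s p2).2.1 _ p1
        change r (ep a) * s = s * r (ep a)
        conv_rhs => rw [← p3]
        rw [mul_assoc, ee, mul_one]
      · exact ((h3 H _).2 s q).2.2.1 _ ((ep_kk he k).map r)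
    have m₁ := m (nd n).1 q₁
    have m₂ := m (nd n).2.1 q₂
    have m₃ := m (nd n).2.2 q₃
    rw [half ((h b).2.1 _ _ _ _ _ _ n q₁ q₂ q₃)]
    exact ((((m₁.add_right m₂).add_right m₃).sub_right
      ((m₁.mul_right m₂).mul_right m₃)).smul_right _).symm

end Pool.Agent.MP_3ce0a0_al.H27.D1

namespace Pool.Agent.MP_3ce0a0_al.H27

open Pool.Agent.MP_3ce0a0_al.H79.X

theorem sd1 (h1 : SChar) (h2 : SPat) (h3 : SSg) : SD1 := D1.main h1 h2 h3

end Pool.Agent.MP_3ce0a0_al.H27
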