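import Pool.Agent.MP_3ce0a0_al.H79.XS
import Pool.Agent.MP_3ce0a0_al.H79.XG
import Pool.Agent.MP_3ce0a0_al.H79.XB

/-
Generalised eigenvectors of products, and operators that are scalar on a decomposition.
-/

namespace Pool.Agent.MP_3ce0a0_al.H27.D1

open Equiv Module Finset Pool.Agent.MP_3ce0a0_al.H79.X

variable {H : Type} [AddCommGroup H] [Module ℂ H] {f g s : End ℂ H} {v : H} {x y : ℂ}

lemma gen_mul (c : Commute f g) (hx : v ∈ f.maxGenEigenspace x) (hy : v ∈ g.maxGenEigenspace y) :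
    v ∈ (f * g).maxGenEigenspace (x * y) := by
  rw [End.mem_maxGenEigenspace] at hx hy ⊢
  obtain ⟨k, hk⟩ := hx
  obtain ⟨l, hl⟩ := hy
  set a : End ℂ H := f - x • 1 with ha
  set b : End ℂ H := g - y • 1 with hb
  have cab : Commute a b :=
    (c.sub_right ((Commute.one_right f).smul_right y)).sub_left
      (((Commute.one_left _).smul_left x))
  have cfb : Commute f b := c.sub_right ((Commute.one_right f).smul_right y)
  have cfa : Commute f a := (Commute.refl f).sub_right ((Commute.one_right f).smul_right x)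
  have e : f * g - (x * y) • (1 : End ℂ H) = f * b + y • a := by
    rw [ha, hb, mul_sub, smul_sub, mul_smul_comm, mul_one, smul_smul, mul_comm y x]
    abel
  have cc : Commute (f * b) (y • a) := (cfa.mul_left cab.symm).smul_right y
  refine ⟨l + k, ?_⟩
  rw [e, cc.add_pow, LinearMap.sum_apply]
  refine Finset.sum_eq_zero fun i _ => ?_
  rw [← (Nat.cast_commute _ _).eq, cfb.mul_pow, smul_pow, mul_smul_comm, mul_smul_comm,
    LinearMap.smul_apply]
  rcases le_or_gt l i with h | h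
  · obtain ⟨j, rfl⟩ := Nat.exists_eq_add_of_le h
    rw [mul_assoc, ← (cab.pow_pow _ _).eq, add_comm l j, pow_add b, ← mul_assoc, ← mul_assoc,
      ← mul_assoc, End.mul_apply, hl, map_zero, smul_zero]
  · have : l + k - i = (l - i) + k := by omega
    rw [this, pow_add a, ← mul_assoc, ← mul_assoc, End.mul_apply, hk, map_zero, smul_zero]

lemma gen_uniq (hx : v ∈ f.maxGenEigenspace x) (hy : v ∈ f.maxGenEigenspace y) (h : v ≠ 0) :
    x = y := by
  by_contra n
  exact h (Submodule.disjoint_def.1 (End.disjoint_genEigenspace f n ⊤ ⊤) v hx hy)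

lemma gen_of_uni (h : Uni f) (v : H) : v ∈ f.maxGenEigenspace 1 := by
  obtain ⟨k, hk⟩ := h
  exact (End.mem_maxGenEigenspace _ _ _).2 ⟨k, by rw [one_smul, hk]; rfl⟩

lemma gen_of_eq (h : f v = x • v) : v ∈ f.maxGenEigenspace x :=
  (End.mem_maxGenEigenspace _ _ _).2 ⟨1, by simp [h]⟩

lemma sg_eq (h : IsSg s f) (hx : x * x = 1) (hv : v ∈ f.maxGenEigenspace x) : s v = x • v := by
  by_contra n
  have hu : s v - x • v ≠ 0 := sub_ne_zero.2 n
  have m1 : s v - x • v ∈ f.maxGenEigenspace x :=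
    sub_mem (End.mapsTo_maxGenEigenspace_of_comm h.2.1.symm x hv) (Submodule.smul_mem _ _ hv)
  have ss : s (s v) = v := by rw [← End.mul_apply, h.1, End.one_apply]
  have m2 : s v - x • v ∈ s.maxGenEigenspace (-x) := gen_of_eq (by
    rw [map_sub, map_smul, ss, smul_sub, smul_smul, neg_mul, hx]
    simp only [neg_smul, one_smul]
    abel)
  have := gen_uniq (gen_mul h.2.1 m2 m1) (gen_of_uni h.2.2 _) hu
  rw [neg_mul, hx] at this
  norm_num at this

/-- `f` is the scalar `c` on `Q`. -/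
def Sc (Q : Submodule ℂ H) (f : End ℂ H) (c : ℂ) : Prop := ∀ v ∈ Q, f v = c • v

variable {Q : Submodule ℂ H}

lemma Sc.mul (h : Sc Q f x) (k : Sc Q g y) : Sc Q (f * g) (x * y) := fun v hv => by
  rw [End.mul_apply, k v hv, map_smul, h v hv, smul_smul, mul_comm]

lemma Sc.add (h : Sc Q f x) (k : Sc Q g y) : Sc Q (f + g) (x + y) := fun v hv => by
  rw [LinearMap.add_apply, k v hv, h v hv, add_smul]

lemma Sc.sub (h : Sc Q f x) (k : Sc Q g y) : Sc Q (f - g) (x - y) := fun v hv => by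
  rw [LinearMap.sub_apply, k v hv, h v hv, sub_smul]

lemma Sc.smul (h : Sc Q f x) (y : ℂ) : Sc Q (y • f) (y * x) := fun v hv => by
  rw [LinearMap.smul_apply, h v hv, smul_smul]

lemma Sc.one : Sc Q 1 1 := fun v _ => by simp

lemma Sc.zero : Sc Q 0 0 := fun v _ => by simp

lemma Sc.cast (h : Sc Q f x) (e : x = y) : Sc Q f y := e ▸ h

section
variable {κ : Type} {E : κ → Submodule ℂ H} {T : Finset κ}

lemma ext_of (h1 : ⨆ θ, E θ = ⊤) (h2 : ∀ θ, θ ∉ T → E θ = ⊥)
    (h : ∀ θ ∈ T, ∃ c, Sc (E θ) f c ∧ Sc (E θ) g c) : f = g := by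
  ext v
  have hv : v ∈ ⨆ θ, E θ := h1 ▸ Submodule.mem_top
  refine Submodule.iSup_induction E (motive := fun v => f v = g v) hv (fun θ w hw => ?_)
    (by simp) fun a b ha hb => by simp [ha, hb]
  by_cases k : θ ∈ T
  · obtain ⟨c, p, q⟩ := h θ k
    rw [p w hw, q w hw]
  · rw [h2 θ k, Submodule.mem_bot] at hw
    simp [hw]

open Classical in
lemma eig_eq (h1 : ⨆ θ, E θ = ⊤) (h2 : ∀ θ, θ ∉ T → E θ = ⊥) (c : κ → ℂ)
    (h : ∀ θ ∈ T, Sc (E θ) f (c θ)) (z : ℂ) :
    End.eigenspace f z = ⨆ θ : {θ // θ ∈ T.filter fun θ => c θ = z}, E θ.1 := by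
  have le1 : (⨆ θ : {θ // θ ∈ T.filter fun θ => c θ = z}, E θ.1) ≤ End.eigenspace f z :=
    iSup_le fun θ v hv => by
      have := mem_filter.1 θ.2
      rw [End.mem_eigenspace_iff, h _ this.1 v hv, this.2]
  have top : (⨆ θ : {θ // θ ∈ T.filter fun θ => c θ = z}, E θ.1) ⊔
      (⨆ z', ⨆ (_ : z' ≠ z), End.eigenspace f z') = ⊤ := by
    rw [eq_top_iff, ← h1]
    refine iSup_le fun θ => ?_
    by_cases k : θ ∈ T
    · by_cases e : c θ = z
      · exact le_sup_of_le_left (le_iSup (fun θ : {θ // θ ∈ T.filter fun θ => c θ = z} => E θ.1)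
          ⟨θ, mem_filter.2 ⟨k, e⟩⟩)
      · refine le_sup_of_le_right (le_iSup₂_of_le (c θ) e fun v hv => ?_)
        rw [End.mem_eigenspace_iff, h _ k v hv]
    · rw [h2 θ k]
      exact bot_le
  have d := (End.eigenspaces_iSupIndep f z).eq_bot
  have := sup_inf_assoc_of_le (⨆ z', ⨆ (_ : z' ≠ z), End.eigenspace f z') le1
  rwa [top, top_inf_eq, inf_comm, d, sup_bot_eq] at this

open Classical in
lemma finrank_eig [FiniteDimensional ℂ H] (h1 : ⨆ θ, E θ = ⊤) (h2 : ∀ θ, θ ∉ T → E θ = ⊥)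
    (h3 : iSupIndep E) (c : κ → ℂ) (h : ∀ θ ∈ T, Sc (E θ) f (c θ)) (z : ℂ) :
    finrank ℂ (End.eigenspace f z) = ∑ θ ∈ T with c θ = z, finrank ℂ (E θ) := by
  rw [eig_eq h1 h2 c h z, finrank_iSup (P := fun θ : {θ // θ ∈ T.filter fun θ => c θ = z} =>
    E θ.1) (h3.comp Subtype.val_injective)]
  exact Finset.sum_coe_sort (T.filter fun θ => c θ = z) fun θ => finrank ℂ (E θ)

end

/-- sign patterns with a single place of equality. -/
def Pt {κ : Type} (θ : κ → ℂ × ℂ) (e₀ : κ) : Prop :=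
  (∀ e, (θ e).1 ^ 2 = 1 ∧ (θ e).2 ^ 2 = 1) ∧ ∀ e, (θ e).1 = (θ e).2 ↔ e = e₀

open Classical in
lemma sum_pt {κ : Type} [Fintype κ] [DecidableEq κ] (T : Finset (κ → ℂ × ℂ))
    (m : (κ → ℂ × ℂ) → ℕ) (hT : ∀ θ, θ ∈ T ↔ m θ ≠ 0) (ν : ℕ) (e₀ : κ)
    (h : ∀ θ, Pt θ e₀ → m θ = ν) : ∑ θ ∈ T with Pt θ e₀, m θ = ν * 2 ^ Fintype.card κ := by
  let φ : (κ → ℂ) → κ → ℂ × ℂ := fun x e => (x e, if e = e₀ then x e else -x e)
  have inj : Function.Injective φ := fun x y e => funext fun i => congrArg Prod.fst (congrFun e i)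
  let P := (Fintype.piFinset fun _ : κ => ({1, -1} : Finset ℂ)).image φ
  have hP : ∀ θ, θ ∈ P ↔ Pt θ e₀ := fun θ => by
    simp only [P, mem_image, Fintype.mem_piFinset, mem_insert, mem_singleton]
    constructor
    · rintro ⟨x, hx, rfl⟩
      refine ⟨fun e => ?_, fun e => ?_⟩
      · by_cases k : e = e₀ <;> rcases hx e with p | p <;> simp [φ, k, p] <;>
          rcases hx e₀ with q | q <;> simp [q]
      · by_cases k : e = e₀
        · simp [φ, k]
        · rcases hx e with p | p <;> simp [φ, k, p] <;> norm_num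
    · rintro ⟨p, q⟩
      refine ⟨fun e => (θ e).1, fun e => sq_eq_one_iff.1 (p e).1, funext fun e => ?_⟩
      refine Prod.ext rfl ?_
      by_cases k : e = e₀
      · simp only [φ, if_pos k]
        exact (q e).2 k
      · simp only [φ, if_neg k]
        have n := mt (q e).1 k
        rcases sq_eq_one_iff.1 (p e).1 with a | a <;> rcases sq_eq_one_iff.1 (p e).2 with b | b <;>
          simp_all
  have c : P.card = 2 ^ Fintype.card κ := by
    rw [card_image_of_injective _ inj, Fintype.card_piFinset]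
    have : ({1, -1} : Finset ℂ).card = 2 := card_pair (by norm_num)
    simp [this]
  rw [Finset.sum_subset (s₂ := P) (fun θ k => (hP θ).2 (mem_filter.1 k).2) fun θ k n => ?_,
    Finset.sum_congr rfl fun θ k => h θ ((hP θ).1 k), sum_const, c, smul_eq_mul, mul_comm]
  by_contra z
  exact n (mem_filter.2 ⟨(hT θ).2 z, (hP θ).1 k⟩)

end Pool.Agent.MP_3ce0a0_al.H27.D1
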