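import Pool.Agent.MP_3ce0a0_al.H27.XD1A

/-
The spectrum of the multiplications by one letter.
-/

namespace Pool.Agent.MP_3ce0a0_al.H27.D1

open Equiv Module Finset Pool.Agent.MP_3ce0a0_al.H62.Inst Pool.Agent.MP_3ce0a0_al.H79.X
open FreeGroup (of)

variable {ι H : Type} [DecidableEq ι] [AddCommGroup H] [Module ℂ H] {r : Rep ι H} {b : ι}

/-- the other letters. -/
abbrev K (b : ι) : Type := {e // e ∉ ({b} : Finset ι)}

omit [DecidableEq ι] in
lemma K.ne (e : K b) : e.1 ≠ b := fun h => e.2 (mem_singleton.2 h)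

omit [DecidableEq ι] in
lemma of_b : of b ∈ FS (({b} : Finset ι) : Set ι) := of_mem_FS (by simp)

lemma ge_R {θ : K b → ℂ × ℂ} {v : H} (hv : v ∈ GE r {b} (of b) θ) (e : K b) :
    v ∈ (r (Rw e.1 (of b))).maxGenEigenspace (θ e).1 :=
  ((Submodule.mem_iInf _).1 hv e).1

lemma ge_K {θ : K b → ℂ × ℂ} {v : H} (hv : v ∈ GE r {b} (of b) θ) (e : K b) :
    v ∈ (r (kk e.1 b)).maxGenEigenspace ((θ e).1 * (θ e).2) := by
  rw [kk_eq (K.ne e), map_mul]
  exact gen_mul ((commute_Rw_Lw _ _ _).map r) (ge_R hv e) ((Submodule.mem_iInf _).1 hv e).2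

lemma comm_R (e f : K b) :
    Commute (Rw e.1 (of b)) (Rw f.1 (of b)) ∧ Commute (Rw e.1 (of b)) (Lw f.1 (of b)) ∧
      Commute (Lw e.1 (of b)) (Lw f.1 (of b)) := by
  by_cases h : e = f
  · subst h
    exact ⟨Commute.refl _, commute_Rw_Lw _ _ _, Commute.refl _⟩
  · exact commute_ne (S := (({b} : Finset ι) : Set ι)) (fun k => h (Subtype.ext k))
      (by exact_mod_cast e.2) (by exact_mod_cast f.2) of_b of_b

lemma comm_K {e f : ι} (he : e ≠ b) (hf : f ≠ b) : Commute (kk e b) (kk f b) := by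
  have p := comm_R (b := b) ⟨e, by simpa using he⟩ ⟨f, by simpa using hf⟩
  have q := comm_R (b := b) ⟨f, by simpa using hf⟩ ⟨e, by simpa using he⟩
  rw [kk_eq he, kk_eq hf]
  exact (p.1.mul_right p.2.1).mul_left (q.2.1.symm.mul_right p.2.2)

lemma keeps_R (θ : K b → ℂ × ℂ) (e : K b) : Keeps (r (Rw e.1 (of b))) (GE r {b} (of b) θ) :=
  fun _ hv => (Submodule.mem_iInf _).2 fun f =>
    ⟨End.mapsTo_maxGenEigenspace_of_comm ((comm_R e f).1.symm.map r) _
      ((Submodule.mem_iInf _).1 hv f).1,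
    End.mapsTo_maxGenEigenspace_of_comm ((comm_R e f).2.1.symm.map r) _
      ((Submodule.mem_iInf _).1 hv f).2⟩

lemma uni_R (hq : Quad r) {e : ι} (he : e ≠ b) : Uni (r (Rw e (of b)) ^ 2) :=
  hq e {b} (by simp) (by simpa using he) _ of_b

lemma uni_K (hq : Quad r) {e : ι} (he : e ≠ b) : Uni (r (kk e b) ^ 2) := by
  have c := (commute_Rw_Lw e (of b) (of b)).map r
  have ee : r (ep e) * r (ep e) = 1 := by rw [← map_mul, ep_sq, map_one]
  rw [kk_eq he, map_mul, c.mul_pow]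
  refine (uni_R hq he).mul ?_ (c.pow_pow _ _)
  have := (uni_R hq he).conj ee ee
  rw [← ep_conj_Rw, map_mul, map_mul, pow_two]
  rw [pow_two] at this
  have e2 : r (ep e) * r (Rw e (of b)) * r (ep e) * (r (ep e) * r (Rw e (of b)) * r (ep e)) =
      r (ep e) * (r (Rw e (of b)) * r (Rw e (of b))) * r (ep e) := by
    calc _ = r (ep e) * r (Rw e (of b)) * (r (ep e) * r (ep e)) * r (Rw e (of b)) * r (ep e) := by
          simp only [mul_assoc]
      _ = _ := by rw [ee]; simp only [mul_assoc, one_mul]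
  rwa [e2]

lemma ge_list {θ : K b → ℂ × ℂ} {v : H} (hv : v ∈ GE r {b} (of b) θ) (c : ι → ℂ)
    (hc : ∀ e : K b, c e.1 = (θ e).1 * (θ e).2) (L : List ι) (hL : ∀ e ∈ L, e ≠ b) :
    v ∈ (r (L.map fun e => kk e b).prod).maxGenEigenspace (L.map c).prod := by
  induction L with
  | nil => exact gen_of_eq (by simp)
  | cons a L ih =>
    have ha := hL a List.mem_cons_self
    have hL' : ∀ e ∈ L, e ≠ b := fun e he => hL e (List.mem_cons_of_mem _ he)
    rw [List.map_cons, List.prod_cons, List.map_cons, List.prod_cons, map_mul]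
    refine gen_mul (Commute.map ?_ r) ?_ (ih hL')
    · refine Commute.list_prod_right _ _ fun x hx => ?_
      obtain ⟨e, he, rfl⟩ := List.mem_map.1 hx
      exact comm_K ha (hL' e he)
    · have := ge_K hv ⟨a, by simpa using ha⟩
      rwa [← hc] at this

variable [Fintype ι]

lemma card_K (b : ι) : Fintype.card (K b) = Fintype.card ι - 1 := by
  rw [Fintype.card_subtype_compl (fun e => e ∈ ({b} : Finset ι))]
  simp

lemma parity (hn : NoInn r) {θ : K b → ℂ × ℂ} {v : H} (hv : v ∈ GE r {b} (of b) θ) (h0 : v ≠ 0) :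
    ∏ e, (θ e).1 * (θ e).2 = 1 := by
  let c : ι → ℂ := fun e => if h : e ∉ ({b} : Finset ι) then (θ ⟨e, h⟩).1 * (θ ⟨e, h⟩).2 else 1
  have hc : ∀ e : K b, c e.1 = (θ e).1 * (θ e).2 := fun e => dif_pos e.2
  have h1 := ge_list hv c hc (univ.erase b).toList fun e he =>
    (mem_erase.1 (mem_toList.1 he)).1
  have h2 : r ((univ.erase b).toList.map fun e => kk e b).prod = 1 := by
    have := congrArg r (prod_kk b)
    rwa [map_mul, hn, one_mul, map_one] at this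
  rw [h2, Finset.prod_map_toList] at h1
  have h3 := gen_uniq h1 (gen_of_eq (x := 1) (by simp)) h0
  rw [Finset.prod_subtype (p := fun e => e ∉ ({b} : Finset ι)) (F := inferInstance)
    (univ.erase b) (by simp)] at h3
  rw [← h3]
  exact Finset.prod_congr rfl fun e _ => (hc e).symm

open Classical in
lemma loc [FiniteDimensional ℂ H] (h1 : SChar) (h2 : SPat) (h8 : 8 ≤ Fintype.card ι)
    (hev : Even (Fintype.card ι))
    (hd : finrank ℂ H ≤ (Fintype.card ι - 1) * 2 ^ Fintype.card ι) (hn : NoInn r) (hq : Quad r)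
    (b : ι) : ∃ (T : Finset (K b → ℂ × ℂ)) (ν : ℕ), ⨆ θ, GE r {b} (of b) θ = ⊤ ∧
      iSupIndep (GE r {b} (of b)) ∧ (∀ θ, θ ∉ T → GE r {b} (of b) θ = ⊥) ∧
      (∀ θ ∈ T, (∀ e, (θ e).1 ^ 2 = 1 ∧ (θ e).2 ^ 2 = 1) ∧
        ((∀ e, (θ e).1 = (θ e).2) ∨ ∃ e₀, Pt θ e₀)) ∧
      (∀ θ e₀, Pt θ e₀ → finrank ℂ (GE r {b} (of b) θ) = ν) ∧
      ∀ e₀, ∑ θ ∈ T with Pt θ e₀, finrank ℂ (GE r {b} (of b) θ) =
        ν * 2 ^ (Fintype.card ι - 1) := by
  obtain ⟨T, inv, hs, top, ind⟩ := h1 ι H r {b} (of b) of_b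
  have nz : ∀ θ ∈ T, ∃ v ∈ GE r {b} (of b) θ, v ≠ 0 := fun θ k =>
    Submodule.exists_mem_ne_zero_of_ne_bot fun z => (inv.1 θ).1 k (by simp [z])
  have s1 : ∀ θ ∈ T, ∀ e, (θ e).1 ^ 2 = 1 := fun θ k e => by
    obtain ⟨v, hv, h0⟩ := nz θ k
    have := gen_mul (Commute.refl _) (ge_R hv e) (ge_R hv e)
    rw [← pow_two, ← pow_two] at this
    exact gen_uniq this (gen_of_uni (uni_R hq (K.ne e)) v) h0
  have s2 : ∀ θ ∈ T, ∀ e, (θ e).1 ^ 2 = 1 ∧ (θ e).2 ^ 2 = 1 := fun θ k e => ⟨s1 θ k e, by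
    have := s1 (Function.update θ e (θ e).swap)
      ((inv.1 _).2 (by rw [inv.2.2.2.1 θ e]; exact (inv.1 θ).1 k)) e
    simpa using this⟩
  have ck := card_K b
  have cT : T.card ≤ Fintype.card (K b) * 2 ^ (Fintype.card (K b) + 1) := by
    rw [ck, Nat.sub_add_cancel (by omega)]
    refine le_trans ?_ (hs.le.trans hd)
    rw [card_eq_sum_ones]
    exact sum_le_sum fun θ k => Nat.one_le_iff_ne_zero.2 ((inv.1 θ).1 k)
  obtain ⟨p, ν, hν⟩ := h2 (K b) T _ (by omega) (by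
    rw [ck]
    exact Nat.Even.sub_odd (by omega) hev odd_one) inv s2 (fun θ k => by
      obtain ⟨v, hv, h0⟩ := nz θ k
      exact parity hn hv h0) cT
  have q : ∀ θ e₀, Pt θ e₀ → finrank ℂ (GE r {b} (of b) θ) = ν :=
    fun θ e₀ h => hν θ h.1 ⟨e₀, h.2⟩
  refine ⟨T, ν, top, ind, fun θ k => ?_, fun θ k => ⟨s2 θ k, (p θ k).imp id fun ⟨e₀, h⟩ =>
    ⟨e₀, s2 θ k, h⟩⟩, q, fun e₀ => ?_⟩
  · by_contra z
    exact k ((inv.1 θ).2 fun y => z (Submodule.finrank_eq_zero.1 y))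
  · rw [← ck]
    exact sum_pt T _ inv.1 ν e₀ fun θ h => q θ e₀ h

end Pool.Agent.MP_3ce0a0_al.H27.D1
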